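import Pool.Agent.N728.QL.Def

set_option autoImplicit false

/-! # Project QN (helper728): `x ℓ(x, y) + c` along the lines `x + y = n`, for almost all `n`.
The theorems of project QL for both signs of `a`, with a lower bound for the constant. -/

namespace Pool.Agent.N728.QN

open Finset Pool.Agent.N728.QL

noncomputable section

open Classical in
/-- CSTN. The product converges fast for almost all `b`, and lies between two positive constants. -/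
def S_CSTN (a c : ℤ) : Prop := ∀ ε : ℝ, 0 < ε → ∃ K0 κ : ℝ, 0 < K0 ∧ 0 < κ ∧ ∀ δ : ℝ, 0 < δ → ∃ z0 : ℕ, ∀ z : ℕ,
  z0 ≤ z → ∃ B0 : ℕ, ∀ B : ℕ, B0 ≤ B →
  (((Icc 1 B).filter (fun b : ℕ => Admissible a b c ∧
    ¬ ∃ K : ℝ, IsC a b c K ∧ κ ≤ K ∧ K ≤ K0 ∧ |2 * K - Sg a b c z| ≤ δ)).card : ℝ) ≤ ε * B

open Classical in
/-- The final theorem for `a ≠ 0`. -/
def FinalN (a c : ℤ) : Prop := ∃ C1 : ℕ, ∀ ε : ℝ, 0 < ε → ∃ κ : ℝ, 0 < κ ∧ ∀ δ : ℝ, 0 < δ → ∀ C2 : ℕ, ∃ B0 : ℕ,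
  ∀ B : ℕ, B0 ≤ B → ∀ T : ℕ, (B : ℝ) ≤ T * Real.log B ^ C2 → (T : ℝ) * Real.log B ^ C1 ≤ B →
  (((Icc 1 B).filter (fun b : ℕ => Admissible a b c ∧
    ¬ ∃ K : ℝ, IsC a b c K ∧ κ ≤ K ∧
      |(count a b c T : ℝ) - 2 * K * ∑ t ∈ Icc 1 T, 1 / Real.log ((a * (t : ℤ) ^ 2 + b * t + c : ℤ) : ℝ)| ≤
        δ * (T / Real.log T))).card : ℝ) ≤ ε * B

/-! ### The result -/

/-- The polynomial `f(x, y) = x (a x + b y + e) + c`. -/
def ff (a b e c x y : ℤ) : ℤ := x * (a * x + b * y + e) + c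

/-- `f(x, n - x)` as a polynomial in `x`. -/
def gg (a b e c n : ℤ) : Polynomial ℤ :=
  Polynomial.C (a - b) * Polynomial.X ^ 2 + Polynomial.C (b * n + e) * Polynomial.X + Polynomial.C c

/-- The conditions of the problem for one `n`: `f(x, n - x)` is irreducible and has no fixed prime divisor. -/
def AdmN (a b e c n : ℤ) : Prop :=
  Irreducible (gg a b e c n) ∧ ∀ p : ℕ, p.Prime → ∃ x : ℤ, ¬ (p : ℤ) ∣ ff a b e c x (n - x)

/-- The number of `1 ≤ x ≤ T` with `f(x, n - x)` prime. -/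
def rep (a b e c n : ℤ) (T : ℕ) : ℕ := ((Icc 1 T).filter (fun x : ℕ => (ff a b e c x (n - x)).toNat.Prime)).card

open Classical in
/-- The result: for almost all `n` which satisfy the conditions, the expected number of the `x ≤ T` gives primes, and
the constant is bounded below. -/
def Res (a b e c : ℤ) : Prop := ∃ C1 : ℕ, ∀ ε : ℝ, 0 < ε → ∃ κ : ℝ, 0 < κ ∧ ∀ δ : ℝ, 0 < δ → ∀ C2 : ℕ, ∃ N0 : ℕ,
  ∀ N : ℕ, N0 ≤ N → ∀ T : ℕ, (N : ℝ) ≤ T * Real.log N ^ C2 → (T : ℝ) * Real.log N ^ C1 ≤ N →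
  (((Icc 1 N).filter (fun n : ℕ => AdmN a b e c n ∧
    ¬ ∃ K : ℝ, IsC (a - b) (b * n + e) c K ∧ κ ≤ K ∧
      |(rep a b e c n T : ℝ) - 2 * K * ∑ x ∈ Icc 1 T, 1 / Real.log ((ff a b e c x ((n : ℤ) - x) : ℤ) : ℝ)| ≤
        δ * (T / Real.log T))).card : ℝ) ≤ ε * N

open Classical in
/-- The qualitative form: almost all `n` which satisfy the conditions are `x + y` with `|f(x, y)|` prime. -/
def Cor (a b e c : ℤ) : Prop := ∀ ε : ℝ, 0 < ε → ∃ N0 : ℕ, ∀ N : ℕ, N0 ≤ N →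
  (((Icc 1 N).filter (fun n : ℕ => AdmN a b e c n ∧
    ¬ ∃ x y : ℕ, 1 ≤ x ∧ 1 ≤ y ∧ x + y = n ∧ (ff a b e c x y).natAbs.Prime)).card : ℝ) ≤ ε * N

end

end Pool.Agent.N728.QN
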