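import Pool.Agent.N728.QL.All
import Pool.Agent.N314.QN.CST
import Pool.Agent.N946.QN.FIN
import Pool.Agent.N273.QN.RES

set_option autoImplicit false

/-! # Project QN: assembly -/

namespace Pool.Agent.N728.QN

open Pool.Agent.N728.QL

theorem res (a b e c : ℤ) (hb : 1 ≤ b) (hab : a ≠ b) (hc : c ≠ 0) : Res a b e c ∧ Cor a b e c :=
  Pool.Agent.N273.QN.t_RES (fun a c ha hc => Pool.Agent.N946.QN.t_FINN a c ha hc (allMC a c ha hc)
    Pool.Agent.N92.QL.t_LOC (Pool.Agent.N314.QN.t_CSTN a c ha hc) Pool.Agent.N40.QL.t_MER) a b e c hb hab hc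

end Pool.Agent.N728.QN
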